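import Mathlib
import Pool.Graph.R_seed8.Helper772.MV.Basic
import Pool.Agent.H195.ML.Main
import Pool.Agent.H195.ML.Closed

/-!
# Optimal exponents for coefficient combinations of mean `p`-valent functions, `p ≥ 1`

`MeanVal.optExp m p` is the exponent `α_m(p)` of the problem file (`+∞` if nothing is admissible):
`MeanVal.MeanValent p f` is mean `p`-valence in the unit disc, `MeanVal.Admissible m p α` is the
admissibility of `α` for `(m, p)`, both word for word as in the problem file.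

Every `p ≥ 1` lies in a window `N + √N ≤ 2 p ≤ N + 1 + √(N + 1)` with an integer `N ≥ 1`
(`Window p N`). On this window put `D = 2 p - N`. The number `expo p N m` is
* `2 p - m - 1` for `m ≤ N`,
* `-1/2 + ρ ^ (2 (m - N - k)) (2 p D / (2 p + k D) - 1/2)` for `m > N`, where
  `ρ = (4 p - 1) / (4 p + 1)` and `k = min (m - N) ⌈2 p - 1/2 - 2 p / D⌉`.

(In other words `expo + 1/2` is the sequence `V_0 = 2 p - 1/2`,
`V_m = max (2 p - m - 1/2) (F (V_{m-1}))`, `F W = ρ² W` for `W ≤ 1 / (2 ρ)` and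
`F W = ((8 p - 2) W - 1) / (4 W + 8 p + 2)` otherwise.)

We show `α_m(p) ≥ expo p N m` for all `m ≥ 1`, `p ≥ 1`, with equality for all `m` when
`p ≤ 2 + √2`, for all `p` when `m ≤ 5`, and whenever `m + √m ≤ 2 p` and `3 m - 1 ≤ 4 p`.
-/

open MeasureTheory Metric Set
open scoped ENNReal Real

namespace Pool.Agent.Results.MP_e3615c_an.ExponentsAboveOne

open MeanVal Pool.Agent.H195

/-- `N ≥ 1` is an integer with `N + √N ≤ 2 p ≤ N + 1 + √(N + 1)` -/
def Window (p : ℝ) (N : ℕ) : Prop :=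
  1 ≤ N ∧ (N:ℝ) + √N ≤ 2 * p ∧ 2 * p ≤ N + 1 + √(N + 1)

/-- the exponent in closed form -/
noncomputable def expo (p : ℝ) (N m : ℕ) : ℝ :=
  if m ≤ N then 2 * p - m - 1
  else
    let D : ℝ := 2 * p - N
    let k : ℕ := min (m - N) ⌈2 * p - 1 / 2 - 2 * p / D⌉₊;
    -1 / 2 + ((4 * p - 1) / (4 * p + 1)) ^ (2 * (m - N - k)) * (2 * p * D / (2 * p + k * D) - 1 / 2)

theorem window_one {p : ℝ} {N : ℕ} (h : Window p N) : 1 ≤ p := by
  obtain ⟨h1, h2, _⟩ := h
  have h3 : (1:ℝ) ≤ N := by exact_mod_cast h1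
  have h4 : 1 ≤ √(N:ℝ) := by rw [Real.one_le_sqrt]; exact h3
  linarith

theorem exists_window (p : ℝ) (hp : 1 ≤ p) : ∃ N : ℕ, Window p N := by
  classical
  have hex : ∃ n : ℕ, 2 * p ≤ (n:ℝ) + 1 + √((n:ℝ) + 1) := by
    obtain ⟨n, hn⟩ := exists_nat_ge (2 * p)
    refine ⟨n, ?_⟩
    have := Real.sqrt_nonneg ((n:ℝ) + 1)
    linarith
  set P : ℕ → Prop := fun n => 1 ≤ n ∧ 2 * p ≤ (n:ℝ) + 1 + √((n:ℝ) + 1) with hP
  have hex' : ∃ n, P n := by
    obtain ⟨n, hn⟩ := hex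
    refine ⟨n + 1, by omega, ?_⟩
    have h1 : √((n:ℝ) + 1) ≤ √(((n + 1 : ℕ) : ℝ) + 1) := by
      apply Real.sqrt_le_sqrt
      push_cast
      linarith
    push_cast at h1 ⊢
    linarith
  refine ⟨Nat.find hex', (Nat.find_spec hex').1, ?_, (Nat.find_spec hex').2⟩
  rcases Nat.lt_or_ge (Nat.find hex') 2 with h | h
  · have h1 : Nat.find hex' = 1 := by
      have := (Nat.find_spec hex').1
      omega
    rw [h1]
    push_cast
    rw [Real.sqrt_one]
    linarith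
  · have h1 : ¬ P (Nat.find hex' - 1) := Nat.find_min hex' (by omega)
    have h2 : ((Nat.find hex' - 1 : ℕ) : ℝ) + 1 = (Nat.find hex' : ℕ) := by
      rw [Nat.cast_sub (by omega)]; push_cast; ring
    by_contra hcon
    push Not at hcon
    apply h1
    refine ⟨by omega, ?_⟩
    rw [h2]
    exact hcon.le

theorem expo_eq (p : ℝ) (N m : ℕ) (h : Window p N) :
    expo p N m = -1 / 2 + Vrec p m := by
  have hp := window_one h
  obtain ⟨h1, h2, h3⟩ := h
  have hNR : (1:ℝ) ≤ N := by exact_mod_cast h1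
  have hs : √(N:ℝ) ^ 2 = N := Real.sq_sqrt (by linarith)
  have hs1 : 1 ≤ √(N:ℝ) := by rw [Real.one_le_sqrt]; exact hNR
  have hs' : √((N:ℝ) + 1) ^ 2 = N + 1 := Real.sq_sqrt (by linarith)
  have hs'0 := Real.sqrt_nonneg ((N:ℝ) + 1)
  have hD1 : 1 ≤ 2 * p - N := by linarith
  have hDN : (N:ℝ) ≤ (2 * p - N) ^ 2 := by nlinarith
  unfold expo
  split_ifs with hmN
  · have hmR : (m:ℝ) ≤ N := by exact_mod_cast hmN
    rw [Vrec_small p hp m (by linarith) (by nlinarith)]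
    ring
  · push Not at hmN
    obtain ⟨j, rfl⟩ : ∃ j, m = N + j := ⟨m - N, by omega⟩
    have h4 : (2 * p - N - 1) ^ 2 ≤ N + 1 := by nlinarith
    rw [Vrec_large p hp N (2 * p - N) (by ring) hD1 hDN h4 j]
    simp only [Nat.add_sub_cancel_left, kst]

/-- **Main theorem.** Every `p ≥ 1` lies in a window; on the window of `N` and for `m ≥ 1` one has
`α_m(p) ≥ expo p N m`, with equality if `p ≤ 2 + √2`, or `m ≤ 5`, or `m + √m ≤ 2 p` and
`3 m - 1 ≤ 4 p`. -/
theorem result :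
    (∀ p : ℝ, 1 ≤ p → ∃ N : ℕ, Window p N) ∧
    ∀ (p : ℝ) (N m : ℕ), Window p N → 1 ≤ m →
      ((expo p N m : ℝ) : EReal) ≤ optExp m p ∧
      (p ≤ 2 + √2 ∨ m ≤ 5 ∨ ((m:ℝ) + √m ≤ 2 * p ∧ 3 * (m:ℝ) - 1 ≤ 4 * p) →
        optExp m p = ((expo p N m : ℝ) : EReal)) := by
  refine ⟨exists_window, fun p N m hw hm => ?_⟩
  have hp := window_one hw
  rw [expo_eq p N m hw]
  have hlow : (((-1 / 2 + Vrec p m : ℝ)) : EReal) ≤ optExp m p := by
    unfold optExp
    apply le_sInf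
    rintro _ ⟨α, hα, rfl⟩
    simp only [EReal.coe_le_coe_iff]
    by_contra h
    push Not at h
    exact lower_all m p hm hp α h hα
  refine ⟨hlow, fun hreg => le_antisymm ?_ hlow⟩
  unfold optExp
  apply le_of_forall_gt
  intro c hc
  obtain ⟨d, hbd, hdc⟩ := EReal.lt_iff_exists_real_btwn.1 hc
  have hbd' : -1 / 2 + Vrec p m < d := EReal.coe_lt_coe_iff.1 hbd
  exact lt_of_le_of_lt (sInf_le ⟨d, upper_region m p hm hp hreg d hbd', rfl⟩) hdc

end Pool.Agent.Results.MP_e3615c_an.ExponentsAboveOne
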